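import Pool.Agent.H71.CS.Main

/-!
# MP_7811f3_co: an upper bound for the product of the sizes of k cross-Sperner families

For a cross-Sperner `k`-tuple in `2^[n]` the sum of the sizes plus twice the square root of the sum
of the products of two of them is at most `2^n` (for `k = 2` this is the theorem of Seymour and
Hilton). So the product of the sizes is at most `(2^n / (k + √(2k(k-1))))^k`.
-/

namespace Pool.Agent.Results.MP_7811f3_co.PairSumBound

open Pool.Agent.H71.CS

theorem result :
    ∀ (n k : ℕ) (F : Fin k → Finset (Finset (Fin n))), CrossSperner F →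
      ∑ i, ((F i).card : ℝ) +
        2 * √(∑ i, ∑ j ∈ Finset.Ioi i, ((F i).card : ℝ) * (F j).card) ≤ 2 ^ n ∧
      ∏ i, ((F i).card : ℝ) ≤ (2 ^ n / (k + √(2 * k * (k - 1)))) ^ k := by
  intro n k F hF
  have h := sum_bound F hF
  exact ⟨h, prod_bound (fun i => ((F i).card : ℝ)) (fun i => Nat.cast_nonneg _) h⟩

end Pool.Agent.Results.MP_7811f3_co.PairSumBound
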